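import Pool.Agent.R644.SP.Half2

set_option autoImplicit false

/-!
# Pieces of the infinite half-plane self-avoiding walk on the hexagonal grid before its cut times:
rare properties of `m`-step walks are rare along the walk
-/

namespace Pool.Agent.R644.Old.HalfPlaneRarePieces

open Filter Topology MeasureTheory

/-- `e^{iπ/3}` -/
noncomputable def Om : ℂ := ⟨1 / 2, Real.sqrt 3 / 2⟩

/-- the hexagonal grid with edge length one and a vertex at `0` (the triangular grid without the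
centres of the hexagons) -/
def HexG : Set ℂ := {z | ∃ a b : ℤ, (a - b) % 3 ≠ 2 ∧ z = a + b * Om}

/-- the grid `Λ` multiplied by `u` -/
def rot (u : ℂ) (Λ : Set ℂ) : Set ℂ := {z | ∃ w ∈ Λ, z = u * w}

/-- self-avoiding walks with `n` steps in the closed upper half-plane, starting at `0`, with steps of
length `r` between points of `Λ`; a walk is continued by its last point -/
def PW (Λ : Set ℂ) (r : ℝ) (n : ℕ) : Set (ℕ → ℂ) :=
  {γ | γ 0 = 0 ∧ (∀ i, γ i ∈ Λ ∧ 0 ≤ (γ i).im) ∧ (∀ i < n, ‖γ (i + 1) - γ i‖ = r) ∧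
    (∀ i ≤ n, ∀ j ≤ n, γ i = γ j → i = j) ∧ ∀ i, n ≤ i → γ i = γ n}

/-- `k` is a cut time of `γ`: there is a horizontal line such that `γ` is below or on the line up to
the time `k`, and strictly above the line afterwards -/
def CutTime (k : ℕ) (γ : ℕ → ℂ) : Prop :=
  ∃ y : ℝ, (∀ i ≤ k, (γ i).im ≤ y) ∧ ∀ i, k < i → y < (γ i).im

/-- the `m`-step self-avoiding walks from `z` in the grid `Λ` with edges of length `r` -/
def SW (Λ : Set ℂ) (r : ℝ) (z : ℂ) (m : ℕ) : Set (Fin (m + 1) → ℂ) :=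
  {ω | ω 0 = z ∧ (∀ i, ω i ∈ Λ) ∧ (∀ i : Fin m, ‖ω i.succ - ω i.castSucc‖ = r) ∧
    Function.Injective ω}

/-- `log (c_m / √(2 + √2) ^ m)`, where `c_m` is the number of the `m`-step self-avoiding walks from
`0` in the grid -/
noncomputable def β (Λ : Set ℂ) (r : ℝ) (m : ℕ) : ℝ :=
  Real.log (((SW Λ r 0 m).ncard : ℝ) / Real.sqrt (2 + Real.sqrt 2) ^ m)

/-- the uniform `m`-step self-avoiding walk in the grid (from an arbitrary point) has the property
`A` with probability at most `η` -/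
def Rare (Λ : Set ℂ) (r : ℝ) (m : ℕ) (A : (Fin (m + 1) → ℂ) → Prop) (η : ℝ) : Prop :=
  ∀ z ∈ Λ, ({ω ∈ SW Λ r z m | A ω}.ncard : ℝ) ≤ η * (SW Λ r z m).ncard

/-- the number of the `m`-step pieces of `γ` with the property `A` up to the time `k`: the number of
the times `j ≤ k - m` such that the piece from time `j` to time `j + m` has the property `A` -/
noncomputable def pieces (m k : ℕ) (A : (Fin (m + 1) → ℂ) → Prop) (γ : ℕ → ℂ) : ℕ :=
  {j : ℕ | j + m ≤ k ∧ A (fun i : Fin (m + 1) => γ (j + i))}.ncard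

/-- two points of the `m`-step walk `ω` have distance at least `r m ^ α` -/
def Wide (r : ℝ) (m : ℕ) (α : ℝ) (ω : Fin (m + 1) → ℂ) : Prop :=
  ∃ i j, r * (m : ℝ) ^ α ≤ ‖ω i - ω j‖

/-- There are constants `c > 0` and `C ≥ 1` such that for the hexagonal grid of edge length `‖u‖`
with a vertex at `0` and an edge at `0` perpendicular to the real line (`β m` is the logarithm of
`c_m / √(2 + √2) ^ m`, `0 ≤ β m ≤ C (log m) ^ 2` for `m ≥ 2`), the infinite half-plane self-avoiding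
walk (the weak limit `μ` of the uniform measures on `n`-step half-plane walks) satisfies:
(1) for `k ≥ 1`, `m ≥ 2` and every property `A` of `m`-step walks which the uniform `m`-step
self-avoiding walk has with probability at most `η < 1`, the probability that `k` is a cut time and
that more than `(β m + 2) / log (1 / η) * (k + 1)` of the `m`-step pieces before the time `k` have the
property `A` is at most `exp (C (log m) ^ 2 - k / m)`;
(2) for properties `A m` with probability at most `η m` (`m ≥ 2`), almost surely, for every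
sufficiently large cut time `k` and all `2 ≤ m ≤ k / (C (log (k + 1)) ^ 2)`, at most
`(β m + 2) / log (1 / η m) * (k + 1)` of the `m`-step pieces before the time `k` have the property
`A m`;
(3) almost surely, for every sufficiently large cut time `k` and all
`C ≤ m ≤ k / (C (log (k + 1)) ^ 2)`, at most `C (log m) ^ 2 m ^ (- 4 / 5) (k + 1)` of the `m`-step
pieces before the time `k` have diameter at least `‖u‖ m ^ (1 - c / log log m)`. -/
theorem result : ∃ c C : ℝ, 0 < c ∧ 1 ≤ C ∧ ∀ u : ℂ, u ≠ 0 →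
    (∃ z ∈ rot u HexG, ‖z‖ = ‖u‖ ∧ z.re = 0) →
    (∀ m : ℕ, 2 ≤ m → 0 ≤ β (rot u HexG) ‖u‖ m ∧
      β (rot u HexG) ‖u‖ m ≤ C * Real.log m ^ 2) ∧
    ∃ μ : Measure (ℕ → ℂ), IsProbabilityMeasure μ ∧
      (∀ᵐ γ ∂μ, γ 0 = 0 ∧ (∀ i, γ i ∈ rot u HexG ∧ 0 ≤ (γ i).im) ∧
        (∀ i, ‖γ (i + 1) - γ i‖ = ‖u‖) ∧ Function.Injective γ) ∧
      (∀ F : BoundedContinuousFunction (ℕ → ℂ) ℝ,
        Tendsto (fun n => (∑ᶠ γ ∈ PW (rot u HexG) ‖u‖ n, F γ) /
          ((PW (rot u HexG) ‖u‖ n).ncard : ℝ)) atTop (𝓝 (∫ γ, F γ ∂μ))) ∧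
      (∀ (k m : ℕ) (A : (Fin (m + 1) → ℂ) → Prop) (η : ℝ), 1 ≤ k → 2 ≤ m → 0 < η → η < 1 →
        Rare (rot u HexG) ‖u‖ m A η →
        μ {γ | CutTime k γ ∧ (β (rot u HexG) ‖u‖ m + 2) / Real.log (1 / η) * ((k : ℝ) + 1) <
          pieces m k A γ} ≤ ENNReal.ofReal (Real.exp (C * Real.log m ^ 2 - k / m))) ∧
      (∀ (A : ∀ m : ℕ, (Fin (m + 1) → ℂ) → Prop) (η : ℕ → ℝ),
        (∀ m, 2 ≤ m → 0 < η m ∧ η m < 1 ∧ Rare (rot u HexG) ‖u‖ m (A m) (η m)) →
        ∀ᵐ γ ∂μ, ∀ᶠ k : ℕ in atTop, CutTime k γ → ∀ m : ℕ, 2 ≤ m →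
          C * (m * Real.log ((k : ℝ) + 1) ^ 2) ≤ k →
          (pieces m k (A m) γ : ℝ) ≤
            (β (rot u HexG) ‖u‖ m + 2) / Real.log (1 / η m) * ((k : ℝ) + 1)) ∧
      ∀ᵐ γ ∂μ, ∀ᶠ k : ℕ in atTop, CutTime k γ → ∀ m : ℕ, C ≤ m →
        C * (m * Real.log ((k : ℝ) + 1) ^ 2) ≤ k →
        (pieces m k (Wide ‖u‖ m (1 - c / Real.log (Real.log m))) γ : ℝ) ≤
          C * Real.log m ^ 2 / (m : ℝ) ^ (4 / 5 : ℝ) * ((k : ℝ) + 1) := by
  have hCN := Pool.Agent.R644.SP.s_cn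
  obtain ⟨C1, hC1, hprob⟩ := Pool.Agent.R644.SP.half_prob hCN
  obtain ⟨c, N, hc0, hN, hwide⟩ := Pool.Agent.R644.SP.wide_rareG hCN Pool.Agent.Y981.QB.s_ld
  obtain ⟨Ku, hKu, hup⟩ := Pool.Agent.R644.SP.sw_upper hCN
  have hbt : ∀ m : ℕ, 2 ≤ m → 0 ≤ Pool.Agent.R644.SP.bt m ∧
      Pool.Agent.R644.SP.bt m ≤ Ku * Real.log m ^ 2 := by
    intro m hm
    refine ⟨Pool.Agent.R644.SP.bt_nonneg hCN m, ?_⟩
    have h1 := hup m hm
    have h2 := pow_pos Pool.Agent.R644.SP.mu0_pos m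
    have h3 := Pool.Agent.R644.SP.sw_lower hCN m
    unfold Pool.Agent.R644.SP.bt
    rw [Real.log_le_iff_le_exp (by
      have : (0 : ℝ) < (Pool.Agent.R644.SP.SWs (0, 0) m).ncard := by linarith
      positivity), div_le_iff₀ h2]
    linarith
  set C : ℝ := C1 + Ku + N + 20 with hC
  refine ⟨c, C, hc0, by linarith, ?_⟩
  intro u hu hv
  obtain ⟨c0, hc, E, hE⟩ := Pool.Agent.W818.TD.emb_vert u hu hv
  have hr : 0 < ‖u‖ := norm_pos_iff.2 hu
  have hβ : ∀ m, β (rot u HexG) ‖u‖ m = Pool.Agent.R644.SP.bt m := fun m =>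
    Pool.Agent.R644.SP.btG_eq hCN E m
  refine ⟨?_, ?_⟩
  · intro m hm
    rw [hβ]
    refine ⟨(hbt m hm).1, (hbt m hm).2.trans ?_⟩
    exact mul_le_mul_of_nonneg_right (by linarith) (sq_nonneg _)
  obtain ⟨μ, h1, h2, h3, h4⟩ :=
    Pool.Agent.H976R3.HPL.concl_of_emb E Pool.Agent.H976R3.HPL.facts_hexA
  have := h1
  have hP : ∀ (k m : ℕ) (A : (Fin (m + 1) → ℂ) → Prop) (η : ℝ), 1 ≤ k → 2 ≤ m → 0 < η → η < 1 →
      Rare (rot u HexG) ‖u‖ m A η → ∀ θ : ℝ,
        (Pool.Agent.R644.SP.bt m + 2) / Real.log (1 / η) ≤ θ →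
        μ {γ | CutTime k γ ∧ θ * ((k : ℝ) + 1) < pieces m k A γ} ≤
          ENNReal.ofReal (Real.exp (C1 * Real.log m ^ 2 - k / m)) := by
    intro k m A η hk hm hη hη1 hA θ hθ
    exact hprob hc hr E hE μ h2 h3 k m hk hm A η θ hη hη1 hA hθ
  have hmono : ∀ k m : ℕ, (C1 + 4) * (m * Real.log ((k : ℝ) + 1) ^ 2) ≤
      C * (m * Real.log ((k : ℝ) + 1) ^ 2) := fun k m =>
    mul_le_mul_of_nonneg_right (by linarith) (by positivity)
  refine ⟨μ, h1, h2, h4, ?_, ?_, ?_⟩
  · intro k m A η hk hm hη hη1 hA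
    rw [hβ]
    refine (hP k m A η hk hm hη hη1 hA _ le_rfl).trans ?_
    refine ENNReal.ofReal_le_ofReal (Real.exp_le_exp.mpr ?_)
    have := mul_le_mul_of_nonneg_right (show C1 ≤ C by linarith) (sq_nonneg (Real.log (m : ℝ)))
    linarith
  · intro A η hA
    have h5 := Pool.Agent.R644.SP.half_as hC1 μ CutTime
      (fun k m γ => (Pool.Agent.R644.SP.bt m + 2) / Real.log (1 / η m) * ((k : ℝ) + 1) <
        pieces m k (A m) γ) (fun k m hk hm =>
          hP k m (A m) (η m) hk hm (hA m hm).1 (hA m hm).2.1 (hA m hm).2.2 _ le_rfl)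
    filter_upwards [h5] with γ hγ
    filter_upwards [hγ] with k hk hT m hm hmk
    rw [hβ]
    exact not_lt.1 (hk hT m hm ((hmono k m).trans hmk))
  · classical
    set A : ∀ m : ℕ, (Fin (m + 1) → ℂ) → Prop := fun m ω =>
      (16 ≤ m ∧ N ≤ m) ∧ Wide ‖u‖ m (1 - c / Real.log (Real.log m)) ω with hA
    have hAr : ∀ m, 2 ≤ m → Rare (rot u HexG) ‖u‖ m (A m) (Real.exp (-(m : ℝ) ^ (4 / 5 : ℝ))) := by
      intro m hm
      by_cases h : 16 ≤ m ∧ N ≤ m
      · have e : A m = Pool.Agent.R644.SP.WG ‖u‖ m (1 - c / Real.log (Real.log m)) := by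
          funext ω
          exact propext ⟨fun h' => h'.2, fun h' => ⟨h, h'⟩⟩
        rw [e]
        exact hwide hr E hE m h.1 h.2
      · intro z hz
        have e : {ω ∈ SW (rot u HexG) ‖u‖ z m | A m ω} = ∅ := by
          ext ω
          simp only [Set.mem_ofPred_eq, Set.mem_empty_iff_false, iff_false, not_and]
          exact fun _ h' => h h'.1
        rw [e, Set.ncard_empty, Nat.cast_zero]
        positivity
    have h5 := Pool.Agent.R644.SP.half_as hC1 μ CutTime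
      (fun k m γ => (Pool.Agent.R644.SP.bt m + 2) /
        Real.log (1 / Real.exp (-(m : ℝ) ^ (4 / 5 : ℝ))) * ((k : ℝ) + 1) <
        pieces m k (A m) γ) (fun k m hk hm => by
          have hm0 : (0 : ℝ) < m := by
            have : 0 < m := by omega
            exact_mod_cast this
          have hm45 : 0 < (m : ℝ) ^ (4 / 5 : ℝ) := by positivity
          have hη1 : Real.exp (-(m : ℝ) ^ (4 / 5 : ℝ)) < 1 := by
            have h0 := Real.exp_lt_exp.mpr (show -(m : ℝ) ^ (4 / 5 : ℝ) < 0 by linarith)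
            rwa [Real.exp_zero] at h0
          exact hP k m (A m) _ hk hm (Real.exp_pos _) hη1 (hAr m hm) _ le_rfl)
    filter_upwards [h5] with γ hγ
    filter_upwards [hγ] with k hk hT m hCm hmk
    have hm16' : (16 : ℝ) ≤ m := by linarith
    have hm16 : 16 ≤ m := by exact_mod_cast hm16'
    have h6 := not_lt.1 (hk hT m (by omega) ((hmono k m).trans hmk))
    have e : A m = Wide ‖u‖ m (1 - c / Real.log (Real.log m)) := by
      funext ω
      exact propext ⟨fun h' => h'.2, fun h' => ⟨⟨hm16, by linarith⟩, h'⟩⟩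
    rw [e] at h6
    refine h6.trans (mul_le_mul_of_nonneg_right ?_ (by positivity))
    refine (Pool.Agent.R644.SP.theta_le hKu hm16 (hbt m (by omega)).2).trans ?_
    refine div_le_div_of_nonneg_right ?_ (by positivity)
    exact mul_le_mul_of_nonneg_right (by linarith) (sq_nonneg _)

end Pool.Agent.R644.Old.HalfPlaneRarePieces
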